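import Mathlib

/-!
# The commuting conductor of a finite group with a CA-centralizer

Let `z` be an element of a finite group `G` with nonabelian centralizer `H` such that for every
noncentral element `x` of `H` the centralizer of `x` in `H` is abelian and is the centralizer in `G`
of a single element.  Let `b` be the number of these centralizers.  Then `b ≥ 3` and every prime
divisor of `b - 1` lies in the commuting conductor of `G`.
-/

namespace Pool.Agent.Helper773_Comm.LocalCA

open Classical in
/-- The row at `g` of the commuting matrix of `G`. -/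
noncomputable def commRow {G : Type*} [Group G] (g : G) : G → ℤ :=
  fun h => if g * h = h * g then 1 else 0

/-- The commuting difference lattice `M(G)`. -/
noncomputable def diffLattice (G : Type*) [Group G] : Submodule ℤ (G → ℤ) :=
  Submodule.span ℤ {f | ∃ g g' : G, f = commRow g - commRow g'}

/-- The rank over `𝔽_p` of the image of `M(G)` in `𝔽_p^G`. -/
noncomputable def rankMod (G : Type*) [Group G] (p : ℕ) : ℕ :=
  Module.finrank (ZMod p) (Submodule.span (ZMod p)
    ((fun (f : G → ℤ) (h : G) => ((f h : ℤ) : ZMod p)) '' (diffLattice G : Set (G → ℤ))))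

/-- The commuting conductor: the primes at which the rank of `M(G)` drops. -/
def Ccomm (G : Type*) [Group G] : Set ℕ :=
  {p | p.Prime ∧ rankMod G p < Module.finrank ℤ (diffLattice G)}

/-- The centralizer of a single element. -/
def cent {G : Type*} [Group G] (x : G) : Subgroup G := Subgroup.centralizer {x}

/-- The set of centralizers, inside `cent z`, of the noncentral elements of `cent z`. -/
def innerCent {G : Type*} [Group G] (z : G) : Set (Subgroup G) :=
  {S | ∃ x ∈ cent z, (∃ h ∈ cent z, x * h ≠ h * x) ∧ S = cent z ⊓ cent x}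

/-! ## Linear algebra -/

theorem rank_drop {ι : Type*} [Finite ι] (M : Submodule ℤ (ι → ℤ)) (p : ℕ) [Fact p.Prime]
    (ψ : ι → ℤ) (h1 : (p : ℤ) • ψ ∈ M) (h2 : ψ ∉ M) :
    Module.finrank (ZMod p) (Submodule.span (ZMod p)
      ((fun (f : ι → ℤ) (i : ι) => ((f i : ℤ) : ZMod p)) '' (M : Set (ι → ℤ))))
      < Module.finrank ℤ M := by
  classical
  have := Fintype.ofFinite ι
  set e := Module.finBasis ℤ M with he
  set v : Fin (Module.finrank ℤ M) → (ι → ZMod p) :=
    fun j i => (((e j : M) : ι → ℤ) i : ZMod p) with hv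
  have hrep : ∀ f : M, (fun i => (((f : ι → ℤ) i : ℤ) : ZMod p))
      = ∑ j, ((e.repr f j : ℤ) : ZMod p) • v j := by
    intro f
    funext i
    have h := e.sum_repr f
    have h' : ((f : ι → ℤ)) i = ∑ j, e.repr f j * ((e j : M) : ι → ℤ) i := by
      have h2 := congrFun (congrArg (fun m : M => (m : ι → ℤ)) h) i
      simp only [Submodule.coe_sum, Submodule.coe_smul, Finset.sum_apply, Pi.smul_apply,
        smul_eq_mul] at h2
      exact h2.symm
    rw [h']
    simp [hv]
  have hspan : Submodule.span (ZMod p)
      ((fun (f : ι → ℤ) (i : ι) => ((f i : ℤ) : ZMod p)) '' (M : Set (ι → ℤ)))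
      = Submodule.span (ZMod p) (Set.range v) := by
    apply le_antisymm
    · rw [Submodule.span_le]
      rintro _ ⟨f, hf, rfl⟩
      have := hrep ⟨f, hf⟩
      simp only at this
      simp only [SetLike.mem_coe]
      rw [this]
      exact Submodule.sum_mem _ fun j _ => Submodule.smul_mem _ _
        (Submodule.subset_span ⟨j, rfl⟩)
    · rw [Submodule.span_le]
      rintro _ ⟨j, rfl⟩
      exact Submodule.subset_span ⟨_, (e j).2, rfl⟩
  rw [hspan]
  have hle : (Set.range v).finrank (ZMod p) ≤ Fintype.card (Fin (Module.finrank ℤ M)) :=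
    finrank_range_le_card v
  rw [Fintype.card_fin] at hle
  refine lt_of_le_of_ne hle ?_
  intro heq
  have hli : LinearIndependent (ZMod p) v := by
    rw [linearIndependent_iff_card_eq_finrank_span, Fintype.card_fin]
    exact heq.symm
  have h3 := hrep ⟨_, h1⟩
  have h4 : (fun i => ((((p : ℤ) • ψ) i : ℤ) : ZMod p)) = 0 := by
    funext i
    simp
  simp only at h3
  rw [h4] at h3
  have h5 := Fintype.linearIndependent_iff.1 hli _ h3.symm
  have h6 : ∀ j, (p : ℤ) ∣ e.repr ⟨_, h1⟩ j := fun j =>
    (ZMod.intCast_zmod_eq_zero_iff_dvd _ p).1 (h5 j)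
  choose d hd using h6
  apply h2
  have h7 : (p : ℤ) • ψ = (p : ℤ) • ((∑ j, d j • e j : M) : ι → ℤ) := by
    have h := congrArg (fun m : M => (m : ι → ℤ)) (e.sum_repr ⟨_, h1⟩)
    simp only at h
    rw [← h]
    have : (∑ j, e.repr ⟨_, h1⟩ j • e j : M) = (p : ℤ) • (∑ j, d j • e j : M) := by
      rw [Finset.smul_sum]
      refine Finset.sum_congr rfl fun j _ => ?_
      rw [smul_smul, ← hd j]
    rw [this]
    rfl
  have hp : (p : ℤ) ≠ 0 := by exact_mod_cast (Fact.out : p.Prime).ne_zero
  have h8 : ψ = ((∑ j, d j • e j : M) : ι → ℤ) := by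
    funext i
    have := congrFun h7 i
    simp only [Pi.smul_apply, smul_eq_mul] at this
    exact mul_left_cancel₀ hp this
  rw [h8]
  exact (∑ j, d j • e j : M).2

/-! ## The group theory -/

section

variable {G : Type*} [Group G]

theorem mem_cent {x y : G} : y ∈ cent x ↔ x * y = y * x := by
  unfold cent
  rw [Subgroup.mem_centralizer_singleton_iff]
  exact eq_comm

theorem mem_cent' {x y : G} : y ∈ cent x ↔ y * x = x * y := by
  rw [mem_cent]
  exact eq_comm

theorem self_mem (x : G) : x ∈ cent x := mem_cent.2 rfl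

/-- `InB z g` says that `g` is a central element of the centralizer of `z`. -/
def InB (z g : G) : Prop := g ∈ cent z ∧ ∀ h ∈ cent z, g * h = h * g

theorem inB_self (z : G) : InB z z := ⟨self_mem z, fun _ hh => mem_cent.1 hh⟩

end

theorem main (G : Type*) [Group G] [Finite G] (z : G)
    (hz : ∃ a ∈ cent z, ∃ b ∈ cent z, a * b ≠ b * a)
    (hC : ∀ x ∈ cent z, (∃ h ∈ cent z, x * h ≠ h * x) →
      ∃ w : G, cent w = cent z ⊓ cent x ∧ ∀ y ∈ cent w, ∀ y' ∈ cent w, y * y' = y' * y) :
    3 ≤ (innerCent z).ncard ∧
      ∀ p : ℕ, p.Prime → p ∣ (innerCent z).ncard - 1 → p ∈ Ccomm G := by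
  classical
  have := Fintype.ofFinite G
  have hfin : (innerCent z).Finite := Set.toFinite _
  -- at least three centralizers
  have hb3 : 3 ≤ (innerCent z).ncard := by
    obtain ⟨a, ha, b, hb, hab⟩ := hz
    have h1 : cent z ⊓ cent a ∈ innerCent z := ⟨a, ha, ⟨b, hb, hab⟩, rfl⟩
    have h2 : cent z ⊓ cent b ∈ innerCent z := ⟨b, hb, ⟨a, ha, fun h => hab h.symm⟩, rfl⟩
    have hab' : a * (a * b) ≠ (a * b) * a := by
      intro h
      apply hab
      have : a * (a * b) = a * (b * a) := by rw [h, mul_assoc]
      exact mul_left_cancel this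
    have hab'' : b * (a * b) ≠ (a * b) * b := by
      intro h
      apply hab
      have : (b * a) * b = (a * b) * b := by rw [← h, mul_assoc]
      exact (mul_right_cancel this).symm
    have h3 : cent z ⊓ cent (a * b) ∈ innerCent z :=
      ⟨a * b, mul_mem ha hb, ⟨a, ha, fun h => hab' h.symm⟩, rfl⟩
    have ea1 : a ∈ cent z ⊓ cent a := ⟨ha, self_mem a⟩
    have ea2 : a ∉ cent z ⊓ cent b := fun h => hab (mem_cent.1 h.2).symm
    have ea3 : a ∉ cent z ⊓ cent (a * b) := fun h => hab' (mem_cent.1 h.2).symm
    have eb2 : b ∈ cent z ⊓ cent b := ⟨hb, self_mem b⟩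
    have eb3 : b ∉ cent z ⊓ cent (a * b) := fun h => hab'' (mem_cent.1 h.2).symm
    have n12 : cent z ⊓ cent a ≠ cent z ⊓ cent b := fun h => ea2 (h ▸ ea1)
    have n13 : cent z ⊓ cent a ≠ cent z ⊓ cent (a * b) := fun h => ea3 (h ▸ ea1)
    have n23 : cent z ⊓ cent b ≠ cent z ⊓ cent (a * b) := fun h => eb3 (h ▸ eb2)
    have hs : ({cent z ⊓ cent a, cent z ⊓ cent b, cent z ⊓ cent (a * b)} : Set (Subgroup G))
        ⊆ innerCent z := by
      rintro S (rfl | rfl | rfl)
      · exact h1
      · exact h2
      · exact h3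
    have hc : ({cent z ⊓ cent a, cent z ⊓ cent b, cent z ⊓ cent (a * b)} :
        Set (Subgroup G)).ncard = 3 :=
      Set.ncard_eq_three.2 ⟨_, _, _, n12, n13, n23, rfl⟩
    rw [← hc]
    exact Set.ncard_le_ncard hs hfin
  refine ⟨hb3, ?_⟩
  -- representatives
  have hW : ∀ S : Subgroup G, ∃ w : G, S ∈ innerCent z →
      cent w = S ∧ (∀ y ∈ S, ∀ y' ∈ S, y * y' = y' * y) ∧ ¬ InB z w := by
    intro S
    by_cases hS : S ∈ innerCent z
    · obtain ⟨x, hx, ⟨h, hh, hxh⟩, rfl⟩ := hS
      obtain ⟨w, hw, hw2⟩ := hC x hx ⟨h, hh, hxh⟩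
      refine ⟨w, fun _ => ⟨hw, ?_, ?_⟩⟩
      · rw [← hw]
        exact hw2
      · intro hB
        have : h ∈ cent w := mem_cent.2 (hB.2 h hh)
        rw [hw] at this
        exact hxh (mem_cent.1 this.2)
    · exact ⟨1, fun h => absurd h hS⟩
  choose w hw using hW
  set F : Finset (Subgroup G) := hfin.toFinset with hF
  have hmF : ∀ S, S ∈ F ↔ S ∈ innerCent z := fun S => by rw [hF, Set.Finite.mem_toFinset]
  have hcard : (innerCent z).ncard = F.card := Set.ncard_eq_toFinset_card _ hfin
  rw [hcard]
  rw [hcard] at hb3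
  set b : ℕ := F.card with hb
  -- the key count
  have hkey : ∀ g : G, commRow g z - ∑ S ∈ F, commRow g (w S)
      = (1 - (b : ℤ)) * (if InB z g then 1 else 0) := by
    intro g
    have hr : ∀ S ∈ F, commRow g (w S) = if g ∈ S then (1 : ℤ) else 0 := by
      intro S hS
      have h1 := (hw S ((hmF S).1 hS)).1
      unfold commRow
      have : (g * w S = w S * g) ↔ g ∈ S := by
        rw [← mem_cent', h1]
      simp only [this]
    rw [Finset.sum_congr rfl hr]
    by_cases hB : InB z g
    · have h1 : commRow g z = 1 := by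
        unfold commRow
        rw [if_pos (mem_cent'.1 hB.1)]
      have h2 : ∀ S ∈ F, (if g ∈ S then (1 : ℤ) else 0) = 1 := by
        intro S hS
        obtain ⟨x, hx, -, rfl⟩ := (hmF S).1 hS
        rw [if_pos]
        exact ⟨hB.1, mem_cent'.2 (hB.2 x hx)⟩
      rw [Finset.sum_congr rfl h2, h1, if_pos hB]
      simp [hb]
    · rw [if_neg hB, mul_zero]
      by_cases hg : g ∈ cent z
      · have h1 : commRow g z = 1 := by
          unfold commRow
          rw [if_pos (mem_cent'.1 hg)]
        have hex : ∃ h ∈ cent z, g * h ≠ h * g := by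
          by_contra hcon
          push Not at hcon
          exact hB ⟨hg, hcon⟩
        have hS0 : cent z ⊓ cent g ∈ innerCent z := ⟨g, hg, hex, rfl⟩
        have h2 : ∀ S ∈ F, g ∈ S → S = cent z ⊓ cent g := by
          intro S hS hgS
          have hSab := (hw S ((hmF S).1 hS)).2.1
          obtain ⟨x, hx, -, hSx⟩ := (hmF S).1 hS
          have hxS : x ∈ S := by
            rw [hSx]
            exact ⟨hx, self_mem x⟩
          have hab0 := (hw _ hS0).2.1
          apply le_antisymm
          · intro t ht
            have ht' := ht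
            rw [hSx] at ht'
            exact ⟨ht'.1, mem_cent.2 (hSab g hgS t ht)⟩
          · intro t ht
            rw [hSx]
            have hx0 : x ∈ cent z ⊓ cent g := ⟨hx, mem_cent.2 (hSab g hgS x hxS)⟩
            exact ⟨ht.1, mem_cent.2 (hab0 x hx0 t ht)⟩
        have h3 : ∑ S ∈ F, (if g ∈ S then (1 : ℤ) else 0) = 1 := by
          rw [Finset.sum_eq_single (cent z ⊓ cent g)]
          · rw [if_pos]
            exact ⟨hg, self_mem g⟩
          · intro S hS hne
            rw [if_neg]
            intro hgS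
            exact hne (h2 S hS hgS)
          · intro hn
            exact absurd ((hmF _).2 hS0) hn
        rw [h3, h1]
        simp
      · have h1 : commRow g z = 0 := by
          unfold commRow
          rw [if_neg]
          intro h
          exact hg (mem_cent'.2 h)
        have h2 : ∀ S ∈ F, (if g ∈ S then (1 : ℤ) else 0) = 0 := by
          intro S hS
          rw [if_neg]
          intro hgS
          obtain ⟨x, hx, -, rfl⟩ := (hmF S).1 hS
          exact hg hgS.1
        rw [Finset.sum_congr rfl h2, h1]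
        simp
  intro p hp hpb
  have : Fact p.Prime := ⟨hp⟩
  obtain ⟨k, hk⟩ := hpb
  have hkZ : (b : ℤ) - 1 = p * k := by
    have : ((b - 1 : ℕ) : ℤ) = (p * k : ℕ) := by rw [hk]
    rw [Nat.cast_sub (by omega)] at this
    push_cast at this
    exact this
  have hk0 : (k : ℤ) ≠ 0 := by
    intro h
    rw [h, mul_zero] at hkZ
    have : (b : ℤ) = 1 := by linarith
    have : b = 1 := by exact_mod_cast this
    omega
  set φ : G → ℤ := fun g => 1 - (if InB z g then 1 else 0) with hφ
  set ψ : G → ℤ := (k : ℤ) • φ with hψ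
  refine ⟨hp, rank_drop (diffLattice G) p ψ ?_ ?_⟩
  · -- membership of the multiple
    have hsym : ∀ g h : G, commRow g h = commRow h g := by
      intro g h
      unfold commRow
      have : (g * h = h * g) ↔ (h * g = g * h) := eq_comm
      simp only [this]
    have h1 : (p : ℤ) • ψ = (commRow z - commRow 1)
        - ∑ S ∈ F, (commRow (w S) - commRow (1 : G)) := by
      funext y
      have h2 := hkey y
      have h3 : commRow (1 : G) y = 1 := by
        unfold commRow
        rw [if_pos (by rw [one_mul, mul_one])]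
      simp only [hψ, hφ, Pi.smul_apply, Pi.sub_apply, Finset.sum_apply, h3,
        Finset.sum_sub_distrib, Finset.sum_const]
      simp only [nsmul_eq_mul, smul_eq_mul, mul_one]
      have h4 : ∑ S ∈ F, commRow (w S) y = ∑ S ∈ F, commRow y (w S) :=
        Finset.sum_congr rfl fun S _ => hsym _ _
      rw [h4, hsym z y, ← hb]
      have h5 : (p : ℤ) * ((k : ℤ) * (1 - (if InB z y then 1 else 0)))
          = ((b : ℤ) - 1) * (1 - (if InB z y then 1 else 0)) := by
        rw [hkZ]
        ring
      rw [h5]
      linear_combination -h2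
    rw [h1]
    apply Submodule.sub_mem
    · exact Submodule.subset_span ⟨z, 1, rfl⟩
    · exact Submodule.sum_mem _ fun S _ => Submodule.subset_span ⟨w S, 1, rfl⟩
  · intro hmem
    -- the functional
    have hdiv : ∀ m ∈ diffLattice G, ((b : ℤ) - 1) ∣ m z - ∑ S ∈ F, m (w S) := by
      intro m hm
      unfold diffLattice at hm
      induction hm using Submodule.span_induction with
      | mem m hm =>
        obtain ⟨g, g', rfl⟩ := hm
        have e1 := hkey g
        have e2 := hkey g'
        simp only [Pi.sub_apply, Finset.sum_sub_distrib]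
        refine ⟨(if InB z g' then 1 else 0) - (if InB z g then 1 else 0), ?_⟩
        linear_combination e1 - e2
      | zero => simp
      | add m m' _ _ h h' =>
        simp only [Pi.add_apply, Finset.sum_add_distrib]
        have : m z + m' z - (∑ S ∈ F, m (w S) + ∑ S ∈ F, m' (w S))
            = (m z - ∑ S ∈ F, m (w S)) + (m' z - ∑ S ∈ F, m' (w S)) := by ring
        rw [this]
        exact dvd_add h h'
      | smul c m _ h =>
        simp only [Pi.smul_apply, smul_eq_mul, ← Finset.mul_sum]
        rw [← mul_sub]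
        exact Dvd.dvd.mul_left h c
    have h1 := hdiv ψ hmem
    have h2 : ψ z - ∑ S ∈ F, ψ (w S) = - (k * b) := by
      have e1 : ψ z = 0 := by
        simp only [hψ, hφ, Pi.smul_apply, smul_eq_mul]
        rw [if_pos (inB_self z)]
        ring
      have e2 : ∀ S ∈ F, ψ (w S) = k := by
        intro S hS
        have := (hw S ((hmF S).1 hS)).2.2
        simp only [hψ, hφ, Pi.smul_apply, smul_eq_mul]
        rw [if_neg this]
        ring
      rw [e1, Finset.sum_congr rfl e2, Finset.sum_const, nsmul_eq_mul, ← hb]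
      ring
    rw [h2, dvd_neg, hkZ] at h1
    have h3 : (k : ℤ) * p ∣ k * b := by
      rwa [mul_comm (k : ℤ) p]
    have h4 : (p : ℤ) ∣ b := (mul_dvd_mul_iff_left hk0).1 h3
    have h5 : (p : ℤ) ∣ 1 := by
      have : (1 : ℤ) = b - p * k := by linarith
      rw [this]
      exact dvd_sub h4 (Dvd.intro _ rfl)
    have h6 : p ∣ 1 := by exact_mod_cast h5
    exact hp.one_lt.ne' (Nat.dvd_one.1 h6)

/-- Let `z` be an element of a finite group `G` whose centralizer `H` is nonabelian, and suppose that
for every noncentral element `x` of `H` the centralizer of `x` in `H` is abelian and equal to the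
centralizer in `G` of some element `w`.  Let `b` be the number of the subgroups obtained as
centralizers in `H` of noncentral elements of `H`.  Then `b ≥ 3`, every prime divisor of `b - 1` is
in the commuting conductor of `G`, and so the commuting conductor is not empty. -/
theorem result (G : Type*) [Group G] [Finite G] (z : G)
    (hz : ∃ a ∈ cent z, ∃ b ∈ cent z, a * b ≠ b * a)
    (hC : ∀ x ∈ cent z, (∃ h ∈ cent z, x * h ≠ h * x) →
      ∃ w : G, cent w = cent z ⊓ cent x ∧ ∀ y ∈ cent w, ∀ y' ∈ cent w, y * y' = y' * y) :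
    3 ≤ (innerCent z).ncard ∧
      (∀ p : ℕ, p.Prime → p ∣ (innerCent z).ncard - 1 → p ∈ Ccomm G) ∧
      (Ccomm G).Nonempty := by
  obtain ⟨h1, h2⟩ := main G z hz hC
  refine ⟨h1, h2, ?_⟩
  have h3 : (innerCent z).ncard - 1 ≠ 1 := by omega
  obtain ⟨p, hp, hpd⟩ := Nat.exists_prime_and_dvd h3
  exact ⟨p, h2 p hp hpd⟩

end Pool.Agent.Helper773_Comm.LocalCA
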